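import Mathlib
import Pool.Agent.H576.RD.Stm
import Pool.Agent.H576.RD.Move

/-!
# The crown of the nearest points for the group of order 16
-/

set_option autoImplicit false

open Real

namespace Pool.Agent.H553.RD

open Pool.Agent.H576.RD

/-- norm squared in coordinates -/
lemma nsq (v : E) : ‖v‖ ^ 2 = v 0 ^ 2 + v 1 ^ 2 + v 2 ^ 2 := by
  rw [EuclideanSpace.real_norm_sq_eq, Fin.sum_univ_three]

lemma eta (v : E) : v = !₂[v 0, v 1, v 2] := by
  ext i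
  fin_cases i <;> rfl

lemma nsq3 (x y h : ℝ) : ‖(!₂[x, y, h] : E)‖ ^ 2 = x ^ 2 + y ^ 2 + h ^ 2 := by
  rw [nsq]
  simp

lemma norm_le_two {v : E} (h : v 0 ^ 2 + v 1 ^ 2 + v 2 ^ 2 ≤ 4) : ‖v‖ ≤ 2 := by
  have h1 := nsq v
  have h2 := norm_nonneg v
  nlinarith

section sym

variable {X : Set E}

lemma g_iff (hg : Sym X 2 (rrE (π / 4))) (x y h : ℝ) (hN : x ^ 2 + y ^ 2 + h ^ 2 ≤ 4) :
    (!₂[x, y, h] : E) ∈ X ↔ (!₂[√2 / 2 * (x - y), √2 / 2 * (x + y), -h] : E) ∈ X := by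
  have h1 := hg !₂[x, y, h] (norm_le_two (by simpa using hN))
  rw [h1]
  have h2 : rrE (π / 4) (!₂[x, y, h] : E) = !₂[√2 / 2 * (x - y), √2 / 2 * (x + y), -h] := by
    unfold rrE
    rw [cos_pi_div_four, sin_pi_div_four]
    ext i
    fin_cases i
    · simp
      ring
    · simp
      ring
    · simp
  rw [h2]

lemma rot_iff (hg : Sym X 2 (rrE (π / 4))) (x y h : ℝ) (hN : x ^ 2 + y ^ 2 + h ^ 2 ≤ 4) :
    (!₂[x, y, h] : E) ∈ X ↔ (!₂[-y, x, h] : E) ∈ X := by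
  have hs : √2 * √2 = 2 := Real.mul_self_sqrt (by norm_num)
  rw [g_iff hg x y h hN, g_iff hg]
  · have e1 : √2 / 2 * (√2 / 2 * (x - y) - √2 / 2 * (x + y)) = -y := by
      linear_combination (-y / 2) * hs
    have e2 : √2 / 2 * (√2 / 2 * (x - y) + √2 / 2 * (x + y)) = x := by
      linear_combination (x / 2) * hs
    rw [e1, e2, neg_neg]
  · have : (√2 / 2 * (x - y)) ^ 2 + (√2 / 2 * (x + y)) ^ 2 + (-h) ^ 2 = x ^ 2 + y ^ 2 + h ^ 2 := by
      linear_combination ((x - y) ^ 2 / 4 + (x + y) ^ 2 / 4) * hs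
    rw [this]
    exact hN

lemma mir_iff (hm : Sym X 2 mirE) (x y h : ℝ) (hN : x ^ 2 + y ^ 2 + h ^ 2 ≤ 4) :
    (!₂[x, y, h] : E) ∈ X ↔ (!₂[x, -y, h] : E) ∈ X := by
  have h1 := hm !₂[x, y, h] (norm_le_two (by simpa using hN))
  rw [h1]
  have h2 : mirE (!₂[x, y, h] : E) = !₂[x, -y, h] := by
    unfold mirE
    simp
  rw [h2]

end sym

/-- the inequality from a lens partner -/
lemma lens_ineq {X : Set E} {L : ℝ} {b : E} (hL : 0 < L) (hb : ‖b‖ = L)
    (hz : ∀ z ∈ X, ‖z‖ < L → L ≤ ‖z - b‖) (x y h : ℝ) (hX : (!₂[x, y, h] : E) ∈ X)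
    (hN : x ^ 2 + y ^ 2 + h ^ 2 < L ^ 2) :
    2 * (x * b 0 + y * b 1 + h * b 2) ≤ x ^ 2 + y ^ 2 + h ^ 2 := by
  have h0 : ‖(!₂[x, y, h] : E)‖ < L := by
    have h1 := nsq3 x y h
    have h2 := norm_nonneg (!₂[x, y, h] : E)
    nlinarith
  have h1 := hz _ hX h0
  have h2 : L ^ 2 ≤ ‖(!₂[x, y, h] : E) - b‖ ^ 2 := by
    have := norm_nonneg ((!₂[x, y, h] : E) - b)
    nlinarith
  rw [nsq] at h2
  have h3 := nsq b
  rw [hb] at h3
  have e0 : ((!₂[x, y, h] : E) - b) 0 = x - b 0 := rfl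
  have e1 : ((!₂[x, y, h] : E) - b) 1 = y - b 1 := rfl
  have e2 : ((!₂[x, y, h] : E) - b) 2 = h - b 2 := rfl
  rw [e0, e1, e2] at h2
  nlinarith

/-- the inequality from a lens partner and the symmetries -/
lemma lens_sq {X : Set E} {L : ℝ} {b : E} (hL : 0 < L) (hL2 : L ≤ 2) (hb : ‖b‖ = L)
    (hz : ∀ z ∈ X, ‖z‖ < L → L ≤ ‖z - b‖) (hg : Sym X 2 (rrE (π / 4))) (x y h : ℝ)
    (hX : (!₂[x, y, h] : E) ∈ X) (hN : x ^ 2 + y ^ 2 + h ^ 2 < L ^ 2) :
    0 ≤ (x ^ 2 + y ^ 2 + h ^ 2) / 2 - |h * b 2| ∧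
    (x ^ 2 + y ^ 2) * (b 0 ^ 2 + b 1 ^ 2) ≤ 2 * ((x ^ 2 + y ^ 2 + h ^ 2) / 2 - |h * b 2|) ^ 2 := by
  have hs : √2 * √2 = 2 := Real.mul_self_sqrt (by norm_num)
  have hN4 : x ^ 2 + y ^ 2 + h ^ 2 ≤ 4 := by nlinarith
  -- four rotations of one vector
  have key : ∀ x y h : ℝ, (!₂[x, y, h] : E) ∈ X → x ^ 2 + y ^ 2 + h ^ 2 < L ^ 2 →
      |x * b 0 + y * b 1| + h * b 2 ≤ (x ^ 2 + y ^ 2 + h ^ 2) / 2 ∧
      |-y * b 0 + x * b 1| + h * b 2 ≤ (x ^ 2 + y ^ 2 + h ^ 2) / 2 := by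
    intro x y h hX hN
    have hN4 : x ^ 2 + y ^ 2 + h ^ 2 ≤ 4 := by nlinarith
    have r1 := (rot_iff hg x y h hN4).mp hX
    have r2 := (rot_iff hg (-y) x h (by nlinarith)).mp r1
    have r3 := (rot_iff hg (-x) (-y) h (by nlinarith)).mp r2
    have i0 := lens_ineq hL hb hz x y h hX hN
    have i1 := lens_ineq hL hb hz (-y) x h r1 (by nlinarith)
    have i2 := lens_ineq hL hb hz (-x) (-y) h r2 (by nlinarith)
    have i3 := lens_ineq hL hb hz (- -y) (-x) h r3 (by nlinarith)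
    constructor
    · rcases abs_cases (x * b 0 + y * b 1) with ⟨h1, _⟩ | ⟨h1, _⟩
      · rw [h1]; nlinarith
      · rw [h1]; nlinarith
    · rcases abs_cases (-y * b 0 + x * b 1) with ⟨h1, _⟩ | ⟨h1, _⟩
      · rw [h1]; nlinarith
      · rw [h1]; nlinarith
  -- the conclusion from the key inequality
  have fin : ∀ A B S P : ℝ, |A| ≤ S → |B| ≤ S → A ^ 2 + B ^ 2 = P → 0 ≤ S ∧ P ≤ 2 * S ^ 2 := by
    intro A B S P hA hB hP
    have h0 : 0 ≤ S := le_trans (abs_nonneg _) hA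
    refine ⟨h0, ?_⟩
    have h1 : A ^ 2 ≤ S ^ 2 := by
      rw [← sq_abs]
      exact pow_le_pow_left₀ (abs_nonneg _) hA 2
    have h2 : B ^ 2 ≤ S ^ 2 := by
      rw [← sq_abs]
      exact pow_le_pow_left₀ (abs_nonneg _) hB 2
    linarith
  rcases abs_cases (h * b 2) with ⟨h1, _⟩ | ⟨h1, _⟩
  · rw [h1]
    obtain ⟨k1, k2⟩ := key x y h hX hN
    exact fin (x * b 0 + y * b 1) (-y * b 0 + x * b 1) _ _ (by linarith) (by linarith) (by ring)
  · rw [h1]
    have gX := (g_iff hg x y h hN4).mp hX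
    have eN : (√2 / 2 * (x - y)) ^ 2 + (√2 / 2 * (x + y)) ^ 2 + (-h) ^ 2 =
        x ^ 2 + y ^ 2 + h ^ 2 := by
      linear_combination ((x - y) ^ 2 / 4 + (x + y) ^ 2 / 4) * hs
    obtain ⟨k1, k2⟩ := key _ _ _ gX (by rw [eN]; exact hN)
    rw [eN] at k1 k2
    refine fin (√2 / 2 * (x - y) * b 0 + √2 / 2 * (x + y) * b 1)
      (-(√2 / 2 * (x + y)) * b 0 + √2 / 2 * (x - y) * b 1) _ _ (by linarith) (by linarith) ?_
    linear_combination ((x ^ 2 + y ^ 2) * (b 0 ^ 2 + b 1 ^ 2) / 2) * hs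

/-- numerical part of item (1) -/
lemma num1 (d P h W t L : ℝ) (hd : 0 < d) (hdL : d < L) (hP : P + h ^ 2 = d ^ 2)
    (h1 : d ^ 2 ≤ (2 - √2) * P + 4 * h ^ 2) (h2 : d ^ 2 ≤ 2 * P) (hW : d ^ 2 ≤ 2 * W)
    (hWt : W + t ^ 2 = L ^ 2) (h0 : 0 ≤ d ^ 2 / 2 - |h * t|)
    (h3 : P * W ≤ 2 * (d ^ 2 / 2 - |h * t|) ^ 2) : False := by
  have hs0 : (1.4142 : ℝ) < √2 := by
    rw [Real.lt_sqrt (by norm_num)]
    norm_num
  have hW0 : 0 ≤ W := by nlinarith
  have hP0 : 0 ≤ P := by nlinarith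
  -- the height of y
  have hh : 0.12 * d ^ 2 ≤ h ^ 2 := by nlinarith
  have hh2 : 0.69 * d ≤ 2 * |h| := by
    by_contra hcon
    push Not at hcon
    have h4 : (2 * |h|) ^ 2 < (0.69 * d) ^ 2 := by
      apply pow_lt_pow_left₀ hcon (by positivity) (by norm_num)
    rw [mul_pow, sq_abs] at h4
    nlinarith
  have ht : 0.69 * d * |t| ≤ 2 * |h * t| := by
    rw [abs_mul]
    nlinarith [abs_nonneg t]
  -- W ≤ (d - 0.69 t)^2
  have h5 : 0 ≤ d - 0.69 * |t| := by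
    by_contra hcon
    push Not at hcon
    nlinarith
  have h6 : d ^ 2 / 2 - |h * t| ≤ d / 2 * (d - 0.69 * |t|) := by nlinarith
  have h7 : (d ^ 2 / 2 - |h * t|) ^ 2 ≤ (d / 2 * (d - 0.69 * |t|)) ^ 2 :=
    pow_le_pow_left₀ h0 h6 2
  have h8 : d ^ 2 / 2 * W ≤ 2 * (d / 2 * (d - 0.69 * |t|)) ^ 2 := by nlinarith
  have h9 : W ≤ (d - 0.69 * |t|) ^ 2 := by
    by_contra hcon
    push Not at hcon
    have : d ^ 2 / 2 * (d - 0.69 * |t|) ^ 2 < d ^ 2 / 2 * W :=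
      mul_lt_mul_of_pos_left hcon (by positivity)
    nlinarith
  have hL2 : d ^ 2 < L ^ 2 := pow_lt_pow_left₀ hdL hd.le (by norm_num)
  have htt : t ^ 2 = |t| ^ 2 := (sq_abs t).symm
  have h10 : 0 < |t| * (1.4761 * |t| - 1.38 * d) := by nlinarith
  have ht0 : 0 ≤ |t| := abs_nonneg t
  have h11 : 0 < 1.4761 * |t| - 1.38 * d := by
    by_contra hcon
    push Not at hcon
    nlinarith
  have h12 : d - 0.69 * |t| < 0.36 * d := by nlinarith
  have h13 : (d - 0.69 * |t|) ^ 2 < (0.36 * d) ^ 2 := pow_lt_pow_left₀ h12 h5 (by norm_num)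
  nlinarith

/-- the lens partners are on the axis -/
lemma axis (h3 : S_T5c) {r : ℝ} {X : Set E} {L d : ℝ} (H : D4H r X L d) (hdL : d < L) :
    ∃ b : E, b 0 = 0 ∧ b 1 = 0 ∧ |b 2| = L ∧ ‖b‖ = L ∧
      ∀ z ∈ X, ‖z‖ < L → L ≤ ‖z - b‖ := by
  obtain ⟨b, hbX, hbL, hbz⟩ := H.lens 0 H.zero
  simp only [sub_zero] at hbL hbz
  have nn2 : Nn X 2 := H.nn.mono (by norm_num)
  by_cases hoff : Off b
  · exfalso
    obtain ⟨v, hvX, hvd, hvo⟩ := H.datt
    have t1 := h3 X 2 d nn2 H.zero H.dpos.le H.d2 H.sg H.dle v hvX (by rw [hvd]; exact H.d2) hvo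
    have t2 := h3 X 2 d nn2 H.zero H.dpos.le H.d2 H.sg H.dle b hbX (by rw [hbL]; exact H.L2) hoff
    have nv := nsq v
    rw [hvd] at nv
    have nb := nsq b
    rw [hbL] at nb
    have hv' : (!₂[v 0, v 1, v 2] : E) ∈ X := by rw [← eta]; exact hvX
    have hdd : d ^ 2 < L ^ 2 := pow_lt_pow_left₀ hdL H.dpos.le (by norm_num)
    obtain ⟨k0, k1⟩ := lens_sq H.Lpos H.L2 hbL hbz H.sg (v 0) (v 1) (v 2) hv' (by rw [← nv]; exact hdd)
    rw [← nv] at k0 k1
    exact num1 d (v 0 ^ 2 + v 1 ^ 2) (v 2) (b 0 ^ 2 + b 1 ^ 2) (b 2) L H.dpos hdL nv.symm t1.1 t1.2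
      t2.2 nb.symm k0 k1
  · have hb0 : b 0 = 0 := by
      by_contra hc
      exact hoff (Or.inl hc)
    have hb1 : b 1 = 0 := by
      by_contra hc
      exact hoff (Or.inr hc)
    refine ⟨b, hb0, hb1, ?_, hbL, hbz⟩
    have nb := nsq b
    rw [hbL, hb0, hb1] at nb
    have h4 : |b 2| ^ 2 = L ^ 2 := by
      rw [sq_abs]
      nlinarith
    exact (sq_eq_sq₀ (abs_nonneg _) H.Lpos.le).mp h4

/-- the heights of the points at distance less than `L` -/
lemma height (h3 : S_T5c) {r : ℝ} {X : Set E} {L d : ℝ} (H : D4H r X L d) (hdL : d < L) (v : E)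
    (hv : v ∈ X) (hvL : ‖v‖ < L) : 2 * L * |v 2| ≤ ‖v‖ ^ 2 := by
  obtain ⟨b, hb0, hb1, hb2, hbL, hbz⟩ := axis h3 H hdL
  have nv := nsq v
  have hv' : (!₂[v 0, v 1, v 2] : E) ∈ X := by rw [← eta]; exact hv
  have hlt : v 0 ^ 2 + v 1 ^ 2 + v 2 ^ 2 < L ^ 2 := by
    rw [← nv]
    exact pow_lt_pow_left₀ hvL (norm_nonneg _) (by norm_num)
  have k := (lens_sq H.Lpos H.L2 hbL hbz H.sg (v 0) (v 1) (v 2) hv' hlt).1
  rw [abs_mul, hb2] at k
  rw [nv]
  linarith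

lemma off_of {r : ℝ} {X : Set E} {L d : ℝ} (h3 : S_T5c) (H : D4H r X L d) (hdL : d < L) (v : E)
    (hv : v ∈ X) (hvL : ‖v‖ < L) (h0 : v ≠ 0) : Off v := by
  by_contra hoff
  have hb0 : v 0 = 0 := by
    by_contra hc
    exact hoff (Or.inl hc)
  have hb1 : v 1 = 0 := by
    by_contra hc
    exact hoff (Or.inr hc)
  have nv := nsq v
  rw [hb0, hb1] at nv
  have h1 := height h3 H hdL v hv hvL
  have h2 : |v 2| ^ 2 = ‖v‖ ^ 2 := by
    rw [sq_abs, nv]
    ring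
  have h4 : |v 2| = ‖v‖ := (sq_eq_sq₀ (abs_nonneg _) (norm_nonneg _)).mp h2
  have h5 : 0 < ‖v‖ := norm_pos_iff.mpr h0
  rw [h4] at h1
  nlinarith [H.Lpos]

/-- the minimal distance -/
lemma mind (h3 : S_T5c) {r : ℝ} {X : Set E} {L d : ℝ} (H : D4H r X L d) (hdL : d < L) :
    MinD X d where
  pos := H.dpos
  le := by
    intro x hx y hy hxy
    by_cases h9 : ‖y - x‖ ≤ 9
    · obtain ⟨g, hg⟩ := H.nn 0 H.zero x hx
      have hv := hg ((g⁻¹ : LI) (y - x)) (by rw [LinearIsometryEquiv.norm_map]; exact h9)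
      rw [li_apply_inv, zero_add, add_sub_cancel] at hv
      have hvX := hv.mpr hy
      have hn : ‖(g⁻¹ : LI) (y - x)‖ = ‖y - x‖ := LinearIsometryEquiv.norm_map _ _
      rw [← hn]
      by_cases hL : ‖(g⁻¹ : LI) (y - x)‖ < L
      · apply H.dle _ hvX (by linarith [H.L2])
        apply off_of h3 H hdL _ hvX hL
        intro h0
        rw [h0, norm_zero] at hn
        exact hxy (sub_eq_zero.mp (norm_eq_zero.mp hn.symm)).symm
      · push Not at hL
        linarith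
    · push Not at h9
      linarith [H.d2]
  att := by
    intro x hx
    obtain ⟨g, hg⟩ := H.nn 0 H.zero x hx
    obtain ⟨v, hvX, hvd, _⟩ := H.datt
    refine ⟨x + g v, ?_, ?_⟩
    · have := hg v (by rw [hvd]; linarith [H.d2])
      rw [zero_add] at this
      exact this.mp hvX
    · rw [add_sub_cancel_left, LinearIsometryEquiv.norm_map, hvd]

/-- distances of two points with coordinates -/
lemma dist3 {X : Set E} {d : ℝ} (hM : MinD X d) (x y h x' y' h' : ℝ) (h1 : (!₂[x, y, h] : E) ∈ X)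
    (h2 : (!₂[x', y', h'] : E) ∈ X) :
    (x = x' ∧ y = y' ∧ h = h') ∨ d ^ 2 ≤ (x' - x) ^ 2 + (y' - y) ^ 2 + (h' - h) ^ 2 := by
  by_cases he : (!₂[x, y, h] : E) = !₂[x', y', h']
  · left
    refine ⟨?_, ?_, ?_⟩
    · have := congrArg (fun v : E => v 0) he
      simpa using this
    · have := congrArg (fun v : E => v 1) he
      simpa using this
    · have := congrArg (fun v : E => v 2) he
      simpa using this
  · right
    have h3 := hM.le _ h1 _ h2 he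
    have h4 : d ^ 2 ≤ ‖(!₂[x', y', h'] : E) - !₂[x, y, h]‖ ^ 2 :=
      pow_le_pow_left₀ hM.pos.le h3 2
    rw [nsq] at h4
    exact h4

/-- the facts on the points at distance `d` -/
lemma facts (h3 : S_T5c) {r : ℝ} {X : Set E} {L d : ℝ} (H : D4H r X L d) (hdL : d < L) (v : E)
    (hv : v ∈ X) (hvd : ‖v‖ = d) :
    Off v ∧ v 2 ≠ 0 ∧ 2 * |v 2| < d ∧
      (v 0 = 0 ∨ v 1 = 0 ∨ v 0 = v 1 ∨ v 0 = -(v 1)) := by
  have hM := mind h3 H hdL
  have nn2 : Nn X 2 := H.nn.mono (by norm_num)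
  have hv0 : v ≠ 0 := by
    intro h0
    rw [h0, norm_zero] at hvd
    exact absurd hvd H.dpos.ne
  have hoff : Off v := off_of h3 H hdL v hv (by rw [hvd]; exact hdL) hv0
  have t1 := h3 X 2 d nn2 H.zero H.dpos.le H.d2 H.sg H.dle v hv (by rw [hvd]; exact H.d2) hoff
  have nv := nsq v
  rw [hvd] at nv
  have hs0 : (1 : ℝ) < √2 := by
    rw [Real.lt_sqrt (by norm_num)]
    norm_num
  have hdp := H.dpos
  have hh : v 2 ≠ 0 := by
    intro h0
    have h4 := t1.1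
    rw [h0] at h4 nv
    have h5 : v 0 ^ 2 + v 1 ^ 2 = d ^ 2 := by linarith
    rw [h5] at h4
    have h6 : 0 < (√2 - 1) * d ^ 2 := mul_pos (by linarith) (by positivity)
    linarith
  have hhd : 2 * |v 2| < d := by
    have h4 := height h3 H hdL v hv (by rw [hvd]; exact hdL)
    rw [hvd] at h4
    by_contra hc
    push Not at hc
    nlinarith [H.Lpos]
  refine ⟨hoff, hh, hhd, ?_⟩
  have hv' : (!₂[v 0, v 1, v 2] : E) ∈ X := by rw [← eta]; exact hv
  have hN : v 0 ^ 2 + v 1 ^ 2 + v 2 ^ 2 ≤ 4 := by nlinarith [H.d2]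
  have m1 := (mir_iff H.sm _ _ _ hN).mp hv'
  have r1 := (rot_iff H.sg _ _ _ hN).mp hv'
  -- (v1, v0)
  have m2 := (rot_iff H.sg _ _ _ (by nlinarith)).mp m1
  -- (-v1, -v0)
  have m3 := (mir_iff H.sm _ _ _ (by nlinarith)).mp r1
  -- (-v0, v1)
  have m4 := (mir_iff H.sm _ _ _ (by nlinarith)).mp ((rot_iff H.sg _ _ _ (by nlinarith)).mp r1)
  by_contra hc
  push Not at hc
  obtain ⟨c0, c1, c2, c3⟩ := hc
  have hh2 : 0 < v 2 ^ 2 := by positivity
  have d1 : d ^ 2 ≤ 4 * v 1 ^ 2 := by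
    rcases dist3 hM _ _ _ _ _ _ hv' m1 with h | h
    · exact absurd (by linarith [h.2.1]) c1
    · nlinarith
  have d2 : d ^ 2 ≤ 2 * (v 0 - v 1) ^ 2 := by
    rcases dist3 hM _ _ _ _ _ _ hv' m2 with h | h
    · exact absurd (by linarith [h.2.1]) c2
    · nlinarith
  have d3 : d ^ 2 ≤ 2 * (v 0 + v 1) ^ 2 := by
    rcases dist3 hM _ _ _ _ _ _ hv' m3 with h | h
    · exact absurd (by linarith [h.2.1]) c3
    · nlinarith
  have d4 : d ^ 2 ≤ 4 * v 0 ^ 2 := by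
    rcases dist3 hM _ _ _ _ _ _ hv' m4 with h | h
    · exact absurd (by linarith [h.1]) c0
    · nlinarith
  have hd2 : 0 < d ^ 2 := by positivity
  have hprod : d ^ 2 * d ^ 2 ≤ (4 * v 0 ^ 2) * (4 * v 1 ^ 2) :=
    mul_le_mul d4 d1 hd2.le (by positivity)
  rcases le_total 0 (v 0 * v 1) with hp | hp
  · have h4 : d ^ 2 ≤ 4 * (v 0 * v 1) := by
      by_contra hcon
      push Not at hcon
      have : (4 * (v 0 * v 1)) ^ 2 < (d ^ 2) ^ 2 :=
        pow_lt_pow_left₀ hcon (by linarith) (by norm_num)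
      nlinarith
    nlinarith
  · have h4 : d ^ 2 ≤ -(4 * (v 0 * v 1)) := by
      by_contra hcon
      push Not at hcon
      have : (-(4 * (v 0 * v 1))) ^ 2 < (d ^ 2) ^ 2 :=
        pow_lt_pow_left₀ hcon (by linarith) (by norm_num)
      nlinarith
    nlinarith

/-- the vectors of the crown -/
noncomputable def cr (p h : ℝ) (k : ℕ) : E :=
  !₂[p * Real.cos (k * (π / 4)), p * Real.sin (k * (π / 4)), (-1) ^ k * h]

lemma cr_zero (p h : ℝ) : cr p h 0 = !₂[p, 0, h] := by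
  unfold cr
  simp

lemma cr_succ (p h : ℝ) (k : ℕ) : rrE (π / 4) (cr p h k) = cr p h (k + 1) := by
  unfold cr rrE
  have e : ((k + 1 : ℕ) : ℝ) * (π / 4) = k * (π / 4) + π / 4 := by
    push_cast
    ring
  rw [e, Real.cos_add, Real.sin_add]
  ext i
  fin_cases i
  · simp
    ring
  · simp
    ring
  · simp [pow_succ]

lemma cr_nsq (p h : ℝ) (k : ℕ) : ‖cr p h k‖ ^ 2 = p ^ 2 + h ^ 2 := by
  unfold cr
  rw [nsq3]
  have h1 := Real.sin_sq_add_cos_sq (k * (π / 4))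
  have h2 : ((-1 : ℝ) ^ k) ^ 2 = 1 := by
    rw [← pow_mul, mul_comm, pow_mul]
    simp
  linear_combination p ^ 2 * h1 + h ^ 2 * h2

lemma cr_norm (p h d : ℝ) (hd : 0 ≤ d) (k : ℕ) (hN : p ^ 2 + h ^ 2 = d ^ 2) : ‖cr p h k‖ = d := by
  have h1 := cr_nsq p h k
  rw [hN] at h1
  exact (sq_eq_sq₀ (norm_nonneg _) hd).mp h1

lemma cr_mem {X : Set E} (hg : Sym X 2 (rrE (π / 4))) (p h : ℝ) (hN : p ^ 2 + h ^ 2 ≤ 4) (k : ℕ) :
    cr p h k ∈ X ↔ cr p h 0 ∈ X := by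
  induction k with
  | zero => exact Iff.rfl
  | succ k ih =>
    rw [← ih, ← cr_succ]
    have h1 : ‖cr p h k‖ ≤ 2 := by
      have h2 := cr_nsq p h k
      have h4 := norm_nonneg (cr p h k)
      nlinarith
    exact (hg _ h1).symm

/-- a vector of a mirror plane is a vector of a crown -/
lemma exists_cr (v : E) (hoff : Off v) (hm : v 0 = 0 ∨ v 1 = 0 ∨ v 0 = v 1 ∨ v 0 = -(v 1)) :
    ∃ (p : ℝ) (j : ℕ), 0 < p ∧ v = cr p ((-1) ^ j * v 2) j := by
  have hs : √2 * √2 = 2 := Real.mul_self_sqrt (by norm_num)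
  have hs0 : 0 < √2 := by positivity
  have c4 := Real.cos_pi_div_four
  have s4 := Real.sin_pi_div_four
  -- it is enough to find the first two coordinates
  have red : ∀ (p : ℝ) (j : ℕ), 0 < p → v 0 = p * Real.cos (j * (π / 4)) →
      v 1 = p * Real.sin (j * (π / 4)) → ∃ (p : ℝ) (j : ℕ), 0 < p ∧ v = cr p ((-1) ^ j * v 2) j := by
    intro p j hp h0 h1
    refine ⟨p, j, hp, ?_⟩
    unfold cr
    have h2 : (-1 : ℝ) ^ j * ((-1) ^ j * v 2) = v 2 := by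
      rw [← mul_assoc, ← pow_add, ← two_mul, pow_mul]
      simp
    rw [h2, ← h0, ← h1]
    exact eta v
  have a2 : ((2 : ℕ) : ℝ) * (π / 4) = π / 2 := by push_cast; ring
  have a3 : ((3 : ℕ) : ℝ) * (π / 4) = π / 4 + π / 2 := by push_cast; ring
  have a4 : ((4 : ℕ) : ℝ) * (π / 4) = π := by push_cast; ring
  have a5 : ((5 : ℕ) : ℝ) * (π / 4) = π / 4 + π := by push_cast; ring
  have a6 : ((6 : ℕ) : ℝ) * (π / 4) = π / 2 + π := by push_cast; ring
  have a7 : ((7 : ℕ) : ℝ) * (π / 4) = (π / 4 + π / 2) + π := by push_cast; ring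
  rcases hm with h | h | h | h
  · have h1 : v 1 ≠ 0 := by
      rcases hoff with h' | h'
      · exact absurd h h'
      · exact h'
    rcases lt_or_gt_of_ne h1 with hl | hl
    · refine red (-(v 1)) 6 (by linarith) ?_ ?_
      · rw [a6, Real.cos_add_pi, Real.cos_pi_div_two, h]; ring
      · rw [a6, Real.sin_add_pi, Real.sin_pi_div_two]; ring
    · refine red (v 1) 2 hl ?_ ?_
      · rw [a2, Real.cos_pi_div_two, h]; ring
      · rw [a2, Real.sin_pi_div_two]; ring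
  · have h1 : v 0 ≠ 0 := by
      rcases hoff with h' | h'
      · exact h'
      · exact absurd h h'
    rcases lt_or_gt_of_ne h1 with hl | hl
    · refine red (-(v 0)) 4 (by linarith) ?_ ?_
      · rw [a4, Real.cos_pi]; ring
      · rw [a4, Real.sin_pi, h]; ring
    · refine red (v 0) 0 hl ?_ ?_
      · simp
      · simp [h]
  · have h1 : v 1 ≠ 0 := by
      rcases hoff with h' | h'
      · rwa [h] at h'
      · exact h'
    rcases lt_or_gt_of_ne h1 with hl | hl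
    · refine red (-(√2 * v 1)) 5 (by nlinarith) ?_ ?_
      · rw [a5, Real.cos_add_pi, c4, h]; linear_combination (-(v 1) / 2) * hs
      · rw [a5, Real.sin_add_pi, s4]; linear_combination (-(v 1) / 2) * hs
    · refine red (√2 * v 1) 1 (by positivity) ?_ ?_
      · rw [Nat.cast_one, one_mul, c4, h]; linear_combination (-(v 1) / 2) * hs
      · rw [Nat.cast_one, one_mul, s4]; linear_combination (-(v 1) / 2) * hs
  · have h1 : v 1 ≠ 0 := by
      rcases hoff with h' | h'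
      · intro h0
        rw [h, h0] at h'
        simp at h'
      · exact h'
    rcases lt_or_gt_of_ne h1 with hl | hl
    · refine red (-(√2 * v 1)) 7 (by nlinarith) ?_ ?_
      · rw [a7, Real.cos_add_pi, Real.cos_add_pi_div_two, s4, h]
        linear_combination (v 1 / 2) * hs
      · rw [a7, Real.sin_add_pi, Real.sin_add_pi_div_two, c4]
        linear_combination (-(v 1) / 2) * hs
    · refine red (√2 * v 1) 3 (by positivity) ?_ ?_
      · rw [a3, Real.cos_add_pi_div_two, s4, h]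
        linear_combination (v 1 / 2) * hs
      · rw [a3, Real.sin_add_pi_div_two, c4]
        linear_combination (-(v 1) / 2) * hs

/-- the conclusion when `X` has the vector `(p, 0, h)`, `h > 0` -/
lemma final (h3 : S_T5c) {r : ℝ} {X : Set E} {L d : ℝ} (H : D4H r X L d) (hdL : d < L) (p h : ℝ)
    (hp : 0 < p) (hh : 0 < h) (hN : p ^ 2 + h ^ 2 = d ^ 2) (hX : cr p h 0 ∈ X) :
    2 * h < d ∧ ∀ v : E, (v ∈ X ∧ ‖v‖ = d) ↔ ∃ k : ℕ, v = cr p h k := by
  have hM := mind h3 H hdL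
  have hd4 : d ^ 2 ≤ 4 := by nlinarith [H.d2, H.dpos]
  have h2h : 2 * h < d := by
    have h1 := (facts h3 H hdL _ hX (cr_norm p h d H.dpos.le 0 hN)).2.2.1
    have h2 : (cr p h 0) 2 = h := by
      rw [cr_zero]
      rfl
    rw [h2, abs_of_pos hh] at h1
    exact h1
  refine ⟨h2h, ?_⟩
  intro v
  constructor
  · rintro ⟨hv, hvd⟩
    obtain ⟨f1, f2, f3, f4⟩ := facts h3 H hdL v hv hvd
    obtain ⟨p', j, hp', he⟩ := exists_cr v f1 f4
    have hN' : p' ^ 2 + ((-1) ^ j * v 2) ^ 2 = d ^ 2 := by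
      rw [← cr_nsq p' ((-1) ^ j * v 2) j, ← he, hvd]
    have hm : cr p' ((-1) ^ j * v 2) 0 ∈ X := by
      rw [← cr_mem H.sg p' _ (by rw [hN']; exact hd4) j, ← he]
      exact hv
    have habs : |(-1 : ℝ) ^ j * v 2| = |v 2| := by
      rw [abs_mul, abs_pow, abs_neg, abs_one, one_pow, one_mul]
    set h' : ℝ := (-1) ^ j * v 2 with hh'
    rw [cr_zero] at hm
    have hX' := hX
    rw [cr_zero] at hX'
    have hh'1 : 2 * |h'| < d := by rw [habs]; exact f3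
    rcases dist3 hM _ _ _ _ _ _ hX' hm with hcase | hcase
    · refine ⟨j, ?_⟩
      rw [he, ← hcase.1, ← hcase.2.2]
    · exfalso
      -- p, p' > (√3/2) d, so p p' + h h' > d^2/2
      have hd := H.dpos
      have q1 : 3 / 4 * d ^ 2 < p ^ 2 := by nlinarith
      have q2 : 3 / 4 * d ^ 2 < p' ^ 2 := by
        have : (2 * |h'|) ^ 2 < d ^ 2 := pow_lt_pow_left₀ hh'1 (by positivity) (by norm_num)
        rw [mul_pow, sq_abs] at this
        nlinarith
      have q3 : 3 / 4 * d ^ 2 < p * p' := by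
        by_contra hcon
        push Not at hcon
        have hd2 : 0 < 3 / 4 * d ^ 2 := by positivity
        have q4 : (3 / 4 * d ^ 2) * (3 / 4 * d ^ 2) < p ^ 2 * p' ^ 2 :=
          mul_lt_mul'' q1 q2 hd2.le hd2.le
        have q5 : (p * p') ^ 2 ≤ (3 / 4 * d ^ 2) ^ 2 :=
          pow_le_pow_left₀ (by positivity) hcon 2
        nlinarith
      have q6 : -(h * h') ≤ d / 2 * (d / 2) := by
        calc -(h * h') ≤ |h * h'| := neg_le_abs _
          _ = h * |h'| := by rw [abs_mul, abs_of_pos hh]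
          _ ≤ d / 2 * (d / 2) :=
              mul_le_mul (by linarith) (by linarith) (abs_nonneg _) (by linarith)
      nlinarith
  · rintro ⟨k, rfl⟩
    refine ⟨?_, cr_norm p h d H.dpos.le k hN⟩
    rw [cr_mem H.sg p h (by rw [hN]; exact hd4) k]
    exact hX

/-- the reflection in the horizontal plane -/
noncomputable def fl : LI :=
  LinearIsometryEquiv.piLpCongrRight 2
    (![LinearIsometryEquiv.refl ℝ ℝ, LinearIsometryEquiv.refl ℝ ℝ, LinearIsometryEquiv.neg ℝ] :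
      Fin 3 → (ℝ ≃ₗᵢ[ℝ] ℝ))

lemma fl_apply (v : E) : fl v = !₂[v 0, v 1, -(v 2)] := by
  ext i
  fin_cases i <;> rfl

lemma fl_fl (v : E) : fl (fl v) = v := by
  rw [fl_apply, fl_apply]
  conv_rhs => rw [eta v]
  simp

/-- the flipped set satisfies the same hypotheses -/
lemma flip_D4H {r : ℝ} {X : Set E} {L d : ℝ} (H : D4H r X L d) : D4H r (Mv X 0 fl) L d := by
  have hmem : ∀ v : E, v ∈ Mv X 0 fl ↔ fl v ∈ X := by
    intro v
    rw [mem_Mv, zero_add]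
  have hoff : ∀ v : E, Off (fl v) ↔ Off v := by
    intro v
    rw [fl_apply]
    unfold Off
    simp
  refine
    { del := Mv_Del H.del
      nn := Mv_Nn H.nn
      zero := zero_mem_Mv.mpr H.zero
      sg := ?_
      sm := ?_
      Lpos := H.Lpos
      L2 := H.L2
      conn := Mv_Conn H.conn
      lens := Mv_Lens H.lens
      dpos := H.dpos
      d2 := H.d2
      datt := ?_
      dle := ?_ }
  · intro v hv
    rw [hmem, hmem]
    have h1 := H.sg (fl v) (by rw [LinearIsometryEquiv.norm_map]; exact hv)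
    have h2 : rrE (π / 4) (fl v) = fl (rrE (π / 4) v) := by
      rw [fl_apply, fl_apply]
      unfold rrE
      simp
    rw [h1, h2]
  · intro v hv
    rw [hmem, hmem]
    have h1 := H.sm (fl v) (by rw [LinearIsometryEquiv.norm_map]; exact hv)
    have h2 : mirE (fl v) = fl (mirE v) := by
      rw [fl_apply, fl_apply]
      unfold mirE
      simp
    rw [h1, h2]
  · obtain ⟨v, hv, hvd, hvo⟩ := H.datt
    refine ⟨fl v, ?_, ?_, (hoff v).mpr hvo⟩
    · rw [hmem, fl_fl]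
      exact hv
    · rw [LinearIsometryEquiv.norm_map, hvd]
  · intro v hv hv2 hvo
    have h1 := H.dle (fl v) ((hmem v).mp hv) (by rw [LinearIsometryEquiv.norm_map]; exact hv2)
      ((hoff v).mpr hvo)
    rwa [LinearIsometryEquiv.norm_map] at h1

theorem rd_d4b1 (_h1 : S_FINK) (_h2 : S_LP) (h3 : S_T5c) (h4 : S_T12) : S_D4b1 := by
  intro r X L d H hdL
  have hM := mind h3 H hdL
  -- one vector of norm d
  obtain ⟨v, hv, hvd, _⟩ := H.datt
  obtain ⟨f1, f2, f3, f4⟩ := facts h3 H hdL v hv hvd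
  obtain ⟨p, j, hp, he⟩ := exists_cr v f1 f4
  have hN : p ^ 2 + ((-1) ^ j * v 2) ^ 2 = d ^ 2 := by
    rw [← cr_nsq p ((-1) ^ j * v 2) j, ← he, hvd]
  have hd4 : d ^ 2 ≤ 4 := by nlinarith [H.d2, H.dpos]
  have hm : cr p ((-1) ^ j * v 2) 0 ∈ X := by
    rw [← cr_mem H.sg p _ (by rw [hN]; exact hd4) j, ← he]
    exact hv
  have hne : (-1 : ℝ) ^ j * v 2 ≠ 0 := mul_ne_zero (pow_ne_zero _ (by norm_num)) f2
  have fin : ∀ X' : Set E, D4H r X' L d → ∀ h : ℝ, 0 < h → p ^ 2 + h ^ 2 = d ^ 2 →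
      cr p h 0 ∈ X' → 
      ∃ X' : Set E, D4H r X' L d ∧ MinD X' d ∧ d ≤ 1.64 ∧ ∃ ϱ h : ℝ, 0 < ϱ ∧ 0 < h ∧ 2 * h < d ∧
        ϱ ^ 2 + h ^ 2 = d ^ 2 ∧
        ∀ v : E, (v ∈ X' ∧ ‖v‖ = d) ↔
          ∃ k : ℕ, v = !₂[ϱ * Real.cos (k * (π / 4)), ϱ * Real.sin (k * (π / 4)), (-1) ^ k * h] := by
    intro X' H' h hh hN' hX'
    obtain ⟨q1, q2⟩ := final h3 H' hdL p h hp hh hN' hX'
    exact ⟨X', H', mind h3 H' hdL, h4 r X' d H'.del H'.dpos (mind h3 H' hdL).le, p, h, hp, hh, q1,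
      hN', q2⟩
  rcases lt_or_gt_of_ne hne with hlt | hgt
  · refine fin (Mv X 0 fl) (flip_D4H H) (-((-1 : ℝ) ^ j * v 2)) (by linarith)
      (by rw [neg_sq]; exact hN) ?_
    rw [mem_Mv, zero_add, fl_apply, cr_zero]
    rw [cr_zero] at hm
    simpa using hm
  · exact fin X H ((-1 : ℝ) ^ j * v 2) hgt hN hm

end Pool.Agent.H553.RD
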